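import Pool.Agent.P.MP_78d095_pr.H.Mix2

set_option autoImplicit false

namespace Pool.Agent.Results.MP_78d095_pr.CayleyRate

open Pool.Agent.P.MP_78d095_pr Pool.Agent.P.MP_78d095_pr.H

/-- Transition matrix of the lazy random walk with edge weights `w`:
`P(x,x) = 1/2` and `P(x,y) = w(xy) / (2 w(x))`. -/
noncomputable def walk {V : Type} [Fintype V] [DecidableEq V] (w : V → V → ℝ) : Matrix V V ℝ :=
  Matrix.of fun x y => (if x = y then (1:ℝ) / 2 else 0) + w x y / (2 * ∑ z, w x z)

/-- Its stationary law `π(y) = w(y) / ∑ w(u)`. -/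
noncomputable def stat {V : Type} [Fintype V] (w : V → V → ℝ) (y : V) : ℝ :=
  (∑ z, w y z) / ∑ u, ∑ v, w u v

/-- For every `K > 1` and `ε > 0` there is `c > 0` such that there are arbitrarily large finite
connected Cayley graphs `G` on groups `Γ`, `K`-bounded perturbations `w` and times `t` with:
simple random walk is `ε`-mixed in the uniform sense at time `t`, while the `w`-walk from some
vertex `o` is at total variation distance at least `1 - ε` from stationarity at all times
`s ≤ c √(log log |Γ|) t`. -/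
theorem result :
    ∀ K ε : ℝ, 1 < K → 0 < ε → ∃ c : ℝ, 0 < c ∧ ∀ N : ℕ,
      ∃ (Γ : Type) (_ : Group Γ) (_ : Fintype Γ) (_ : DecidableEq Γ) (G : SimpleGraph Γ)
        (_ : DecidableRel G.Adj) (w : Γ → Γ → ℝ) (t : ℕ) (o : Γ),
        N ≤ Fintype.card Γ ∧ G.Connected ∧
        (∀ g x y : Γ, G.Adj (g * x) (g * y) ↔ G.Adj x y) ∧
        (∀ x y, w x y = w y x) ∧
        (∀ x y, G.Adj x y → K⁻¹ ≤ w x y ∧ w x y ≤ K) ∧
        (∀ x y, ¬ G.Adj x y → w x y = 0) ∧
        (∀ x y, |(walk (fun u v => if G.Adj u v then (1:ℝ) else 0) ^ t) x y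
            / stat (fun u v => if G.Adj u v then (1:ℝ) else 0) y - 1| ≤ ε) ∧
        ∀ s : ℕ, (s : ℝ) ≤ c * √(Real.log (Real.log (Fintype.card Γ))) * t →
          1 - ε ≤ 1 / 2 * ∑ y, |(walk w ^ s) o y - stat w y| := by
  intro K ε hK hε
  classical
  have hKi : K⁻¹ < 1 := inv_lt_one_of_one_lt₀ hK
  have hKi0 : 0 < K⁻¹ := by positivity
  have hKK : K * K⁻¹ = 1 := mul_inv_cancel₀ (by linarith)
  set κ : ℝ := 1 - K⁻¹ with hκ
  have hκ0 : 0 < κ := by linarith
  have hκ1 : κ ≤ 1 := by linarith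
  set η : ℝ := min (ε / 8) (1 / 10) with hη
  have hη0 : 0 < η := lt_min (by positivity) (by norm_num)
  have hη1 : η ≤ ε / 8 := min_le_left _ _
  have hη2 : η ≤ 1 / 10 := min_le_right _ _
  set Λ : ℝ := 1 / η with hΛ
  have hΛη : Λ * η = 1 := by rw [hΛ]; field_simp
  have hΛ1 : 1 ≤ Λ := by
    rw [hΛ, le_div_iff₀ hη0]
    linarith
  set A : ℝ := 2 * (4096 * Λ ^ 3) * 64 with hA
  have hΛ3 : (1:ℝ) ≤ Λ ^ 3 := one_le_pow₀ hΛ1
  have hA1 : 1 < A := by rw [hA]; linarith
  have hLA : 0 < Real.log A := Real.log_pos hA1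
  have hsq : 0 < √(Real.log A) := Real.sqrt_pos.mpr hLA
  refine ⟨κ / (6144 * 132 * √(Real.log A)), by positivity, fun N => ?_⟩
  obtain ⟨j0, hj0⟩ := exists_nat_ge (12288 / (κ * ε))
  set j : ℕ := N + j0 + 1 with hj
  obtain ⟨V, hV, a, w, D, φ, o, hS, hE, -, hD, hDle, hcle, hcge⟩ :=
    exists_stage2 hκ0.le hκ1 j 1 le_rfl 2 η Λ (by norm_num) le_rfl hη0 (by simpa using hΛ1)
      (by linarith) hΛη.ge
  have hD1 : 1 ≤ D := hD.resolve_left (by omega)
  have hD0 : 0 < D := by linarith
  have : Nonempty V := ⟨o⟩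
  have ha0 : ∀ x y, 0 ≤ a x y := fun x y => by rcases hS.zo x y with h | h <;> simp [h]
  let G : SimpleGraph V :=
    { Adj := fun x y => a x y = 1
      symm := ⟨fun x y h => by rw [← hS.symm]; exact h⟩
      loopless := ⟨fun x h => by rw [hS.diag] at h; norm_num at h⟩ }
  have hGa : ∀ x y, ¬ G.Adj x y → a x y = 0 := fun x y h => (hS.zo x y).resolve_right h
  have haG : (fun u v => if G.Adj u v then (1:ℝ) else 0) = a := by
    funext x y
    split_ifs with hxy
    · exact Eq.symm hxy
    · exact (hGa x y hxy).symm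
  have hexp : Real.exp η ≤ 1 + 2 * η := by
    have h4 := Real.abs_exp_sub_one_le (x := η) (by rw [abs_of_pos hη0]; linarith)
    rw [abs_of_pos hη0] at h4
    linarith [le_abs_self (Real.exp η - 1)]
  have ht : 16 * 2 / ((1:ℕ):ℝ) * D ≤ (⌈32 * D⌉₊ : ℕ) := by
    refine le_trans (le_of_eq ?_) (Nat.le_ceil _)
    norm_num
  obtain ⟨inst, hinv⟩ := hE.cay
  have hj1 : 1 ≤ j := by omega
  have hjR : (1:ℝ) ≤ j := by exact_mod_cast hj1
  refine ⟨V, inst, hV, inferInstance, G, inferInstance, w, 2 * ⌈32 * D⌉₊, o, ?_, ?_,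
    fun g x y => ?_, hS.wsymm, fun x y h => ?_, fun x y h => ?_, fun x y => ?_, fun s hs => ?_⟩
  · have h1 : j < 2 ^ j := Nat.lt_two_pow_self
    have h2 : 2 ^ j ≤ Fintype.card V := by exact_mod_cast hcge
    omega
  · exact connected_of_mix G hD0 (fun x y h => (hS.zo x y).resolve_left h) hS.reg
      (mix_of_cert hD0 ha0 hS.symm hS.reg hS.trans
        (hS.cert.mono (fun f => le_rfl) le_rfl (by linarith)) _ ht)
  · simp only [G, hinv]
  · have h1 := hE.lo x y
    have h2 := hE.hi x y
    have h3 : a x y = 1 := h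
    rw [h3] at h1 h2
    constructor
    · linarith
    · nlinarith [sq_nonneg (K - 1)]
  · have h1 := hE.lo x y
    have h2 := hE.hi x y
    rw [hGa x y h] at h1 h2
    linarith
  · rw [haG]
    have := mixInf_of_cert hD0 ha0 hS.symm hS.reg hS.trans hS.cert _ ht x y
    exact le_trans this (by linarith)
  · have h2j : (2:ℝ) ≤ 2 ^ j := by
      have := pow_le_pow_right₀ (show (1:ℝ) ≤ 2 by norm_num) hj1
      simpa using this
    have hlogpos : 0 < Real.log (Fintype.card V) := Real.log_pos (by linarith)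
    have hlog1 : Real.log (Fintype.card V) ≤ A ^ (j * j) := by
      have b1 : Real.log (Fintype.card V) ≤ (2 ^ j - 1) * D :=
        (Real.log_le_iff_le_exp (by linarith)).mpr hcle
      have b2 : (2 ^ j - 1) * D ≤ 2 ^ j * (4096 * Λ ^ 3 * 64 ^ j) ^ j :=
        mul_le_mul (by linarith) (by linarith) hD0.le (by positivity)
      have b3 : j ≤ j * j := Nat.le_mul_self j
      have b4 : (2:ℝ) ^ j ≤ 2 ^ (j * j) := pow_le_pow_right₀ (by norm_num) b3
      have b5 : (4096 * Λ ^ 3) ^ j ≤ (4096 * Λ ^ 3) ^ (j * j) :=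
        pow_le_pow_right₀ (by linarith) b3
      rw [mul_pow (4096 * Λ ^ 3), ← pow_mul] at b2
      rw [hA, mul_pow, mul_pow, mul_assoc]
      exact b1.trans (b2.trans (mul_le_mul b4 (mul_le_mul_of_nonneg_right b5 (by positivity))
        (by positivity) (by positivity)))
    have hlog2 : √(Real.log (Real.log (Fintype.card V))) ≤ j * √(Real.log A) := by
      have b1 := Real.log_le_log hlogpos hlog1
      rw [Real.log_pow] at b1
      refine (Real.sqrt_le_sqrt b1).trans (le_of_eq ?_)
      push_cast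
      rw [Real.sqrt_mul (by positivity), Real.sqrt_mul_self (by positivity)]
    have h1 : (((2 * ⌈32 * D⌉₊ : ℕ)) : ℝ) ≤ 66 * D := by
      have := Nat.ceil_lt_add_one (show 0 ≤ 32 * D by positivity)
      push_cast
      linarith
    have h2 : (s : ℝ) ≤ κ / (6144 * 132 * √(Real.log A)) * (j * √(Real.log A)) * (66 * D) :=
      hs.trans (mul_le_mul (mul_le_mul_of_nonneg_left hlog2 (by positivity)) h1 (by positivity)
        (by positivity))
    have h3 : 2 * ((1:ℕ):ℝ) / D * s ≤ κ * j / 6144 := by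
      have e : κ / (6144 * 132 * √(Real.log A)) * (j * √(Real.log A)) * (66 * D)
          = κ * j / 6144 * D / 2 := by
        field_simp
        ring
      rw [e] at h2
      rw [Nat.cast_one, mul_one, div_mul_eq_mul_div, div_le_iff₀ hD0]
      linarith
    have h4 : φ o ≤ Real.exp (-(κ * j / 3072)) := by
      refine hS.gain.trans ?_
      have b1 : 1 - κ / 3072 ≤ Real.exp (-(κ / 3072)) := by
        linarith [Real.add_one_le_exp (-(κ / 3072))]
      have b2 := pow_le_pow_left₀ (by linarith) b1 j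
      rw [← Real.exp_nat_mul] at b2
      refine b2.trans (le_of_eq ?_)
      congr 1
      ring
    have h5 := mul_le_mul (Real.exp_le_exp.mpr h3) h4 (hS.phi0 o) (Real.exp_pos _).le
    rw [← Real.exp_add, show κ * j / 6144 + -(κ * j / 3072) = -(κ * j / 6144) by ring] at h5
    have h6 := exp_neg_le (x := κ * j / 6144) (by positivity)
    have h7 : 1 / (κ * j / 6144) ≤ ε / 2 := by
      have b1 : (j0 : ℝ) ≤ j := by exact_mod_cast (show j0 ≤ j by omega)
      have b2 := hj0.trans b1
      rw [div_le_iff₀ (by positivity)] at b2 ⊢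
      linarith
    have h8 := tv_lower (lam := 2 * (1:ℕ)) (δ := η) (δ' := ε / 2) hD0 (by norm_num)
      (fun x y => by linarith [hS.wlo x y, ha0 x y]) (fun x => ?_) (fun x => ?_) hS.phi0
      hS.lyap hS.bad o s (h5.trans (h6.trans h7))
    · exact le_trans (by linarith) h8
    · have := Finset.sum_le_sum fun y (_ : y ∈ Finset.univ) => hS.wlo x y
      simp only [← Finset.mul_sum, hS.reg] at this
      linarith
    · have := Finset.sum_le_sum fun y (_ : y ∈ Finset.univ) => hS.whi x y
      simp only [← Finset.mul_sum, hS.reg] at this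
      linarith

end Pool.Agent.Results.MP_78d095_pr.CayleyRate
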